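import Pool.Agent.Helper462.Vnr.Op

/-!
# MP_7a6819_al: `CB(Zg_R) < ∞` implies `KG(R) < ∞` for von Neumann regular rings generated over
their centre by fewer than `2^ℵ₀` elements

The spectrum of indecomposable injective modules (`InjSpectrum`, topology generated by the sets
`{N : N e ≠ 0}`) is defined in `Pool/Agent/Helper462/Vnr/Defs.lean`, the Cantor-Bendixson
derivatives `cb` in `Pool/Agent/Helper462/Cb/RankDefs.lean`. Right `R`-modules are modules over
`Rᵐᵒᵖ`.
-/

namespace Pool.Agent.Results.MP_7a6819_al.GeneratedOverCentre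

open VNR Cb

universe u v

/-- **Theorem.** Let `R` be a von Neumann regular ring which is generated, as an algebra over its
centre, by fewer than `2^ℵ₀` elements (for instance any regular algebra of dimension less than
`2^ℵ₀` over a field of any cardinality). If `CB(Zg_R) < ∞`, that is, if some Cantor-Bendixson
derivative of `Zg_R` is empty, then `R` is semiartinian: every nonzero right `R`-module has a
simple submodule (equivalently, `KG(R) < ∞`). -/
theorem result (R : Type u) [Ring R] (hreg : ∀ a : R, ∃ x, a * x * a = a)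
    (G : Set R) (hG : Cardinal.mk G < Cardinal.continuum)
    (hgen : Algebra.adjoin (Subring.center R) G = ⊤)
    (hCB : ∃ α : Ordinal.{v}, cb (InjSpectrum Rᵐᵒᵖ) α = ∅) :
    ∀ (M : Type u) [AddCommGroup M] [Module Rᵐᵒᵖ M], Nontrivial M →
      ∃ S : Submodule Rᵐᵒᵖ M, IsSimpleModule Rᵐᵒᵖ S := by
  intro M _ _ hM
  obtain ⟨α, hα⟩ := hCB
  obtain ⟨G', hG', hspan⟩ := exists_span_op G hG hgen
  exact semiartinian_of_scattered Rᵐᵒᵖ (reg_op hreg) G' hG' hspan α hα M hM

end Pool.Agent.Results.MP_7a6819_al.GeneratedOverCentre
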